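import Mathlib
import Pool.Agent.V117.BinEdge

namespace Pool.Agent.Results.MP_354fda_al.CrownVNumber

open MvPolynomial Pool.Agent.V117.BinEdge

/-- The crown graph: `(i, false)` is the vertex `2i-1 ∈ X` and `(i, true)` the vertex `2i ∈ Y`;
vertices are adjacent iff they lie on different sides and have different indices. -/
def crown (n : ℕ) : SimpleGraph (Fin n × Bool) where
  Adj u v := u.1 ≠ v.1 ∧ u.2 ≠ v.2
  symm := ⟨fun _ _ h => ⟨h.1.symm, h.2.symm⟩⟩
  loopless := ⟨fun _ h => h.1 rfl⟩

/-- The ideal `P_T(G)`: generated by the variables at `T` and the binomials of all pairs of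
vertices in the same component of `G - T`. -/
noncomputable def PT (K : Type) [Field K] {V : Type} (G : SimpleGraph V) (T : Set V) :
    Ideal (MvPolynomial (V × Bool) K) :=
  Ideal.span ({f | ∃ v ∈ T, ∃ z : Bool, f = X (v, z)} ∪
    {f | ∃ a b, a ∉ T ∧ b ∉ T ∧ (inside G Tᶜ).Reachable a b ∧ f = delta K a b})

/-- The set `𝒞(G)` for the crown graph, `n ≥ 4`, as listed in the problem. -/
def crownCutSets (n : ℕ) : Set (Set (Fin n × Bool)) :=
  {T | T = ∅ ∨ (∃ b, T = {v | v.2 = b}) ∨ (∃ b i, T = {v | v.2 = b ∧ v.1 ≠ i}) ∨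
    ∃ i j, i ≠ j ∧ T = {v | v.1 ≠ i ∧ v.1 ≠ j}}

variable {K : Type} [Field K] {n : ℕ}

abbrev Vt (n : ℕ) := Fin n × Bool

lemma sum_mdeg (m : (Vt n × Bool) →₀ ℕ) : ∑ v, mdeg m v = m.degree := by
  have h1 := Fintype.sum_prod_type (fun w : Vt n × Bool => m w)
  rw [Finsupp.degree_eq_sum, h1]
  refine Finset.sum_congr rfl fun v _ => ?_
  rw [Fintype.sum_bool, mdeg, add_comm]

lemma mem_of_small {G : SimpleGraph (Vt n)} {f : MvPolynomial (Vt n × Bool) K} {d : ℕ}
    (hf : f.IsHomogeneous d) (hd : d ≤ 3)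
    (h : ∀ m0, ∑ v, mdeg m0 v ≤ 3 → lin (ind K G m0) f = 0) : f ∈ binEdge K G := by
  apply mem_of_sum_eq_zero
  intro m0
  by_cases h3 : ∑ v, mdeg m0 v ≤ 3
  · exact h m0 h3
  · have hz : lin (ind K G m0) f = lin (fun _ => (0 : K)) f := by
      apply lin_congr
      intro m hm
      unfold ind
      rw [if_neg]
      intro hS
      apply h3
      have h4 : ∑ v, mdeg m0 v = ∑ v, mdeg m v := Finset.sum_congr rfl fun v _ => (hS.1 v).symm
      rw [h4, sum_mdeg]
      have : m.degree = d := by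
        by_contra hne
        exact (mem_support_iff.mp hm) (hf.coeff_eq_zero hne)
      omega
    rw [hz]
    exact lin_zero_fun f

/-- any finite set of vertices in the support has at most three elements -/
lemma card_supp {m0 : (Vt n × Bool) →₀ ℕ} (h : ∑ v, mdeg m0 v ≤ 3) (A : Finset (Vt n))
    (hA : ∀ v ∈ A, v ∈ W m0) : A.card ≤ 3 := by
  have h1 : A.card ≤ ∑ v ∈ A, mdeg m0 v := by
    rw [Finset.card_eq_sum_ones]
    refine Finset.sum_le_sum fun v hv => ?_
    exact Nat.one_le_iff_ne_zero.mpr (hA v hv)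
  have h2 : ∑ v ∈ A, mdeg m0 v ≤ ∑ v, mdeg m0 v :=
    Finset.sum_le_sum_of_subset (Finset.subset_univ _)
  omega

/-! ### the sets `T` whose complement consists of two antipodal pairs -/

lemma case_ij {f : MvPolynomial (Vt n × Bool) K} (hn : 3 ≤ n) {i j : Fin n} (hij : i ≠ j)
    (hx : ∀ v : Vt n, v.1 ≠ i → v.1 ≠ j → X (v, false) * f ∈ binEdge K (crown n))
    (m0 : (Vt n × Bool) →₀ ℕ) (hm0 : ∑ v, mdeg m0 v ≤ 3) :
    lin (ind K (crown n) m0) f = 0 := by
  by_cases h : ∃ v ∈ W m0, v.1 ≠ i ∧ v.1 ≠ j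
  · obtain ⟨v, hv, h1, h2⟩ := h
    exact sum_zero_of_mem_W (hx v h1 h2) hv
  · push Not at h
    obtain ⟨k, hki, hkj⟩ : ∃ k : Fin n, k ≠ i ∧ k ≠ j := by
      by_contra hcon
      push Not at hcon
      have : (Finset.univ : Finset (Fin n)) ⊆ {i, j} := by
        intro k _
        rw [Finset.mem_insert, Finset.mem_singleton]
        by_cases hk : k = i
        · exact Or.inl hk
        · exact Or.inr (hcon k hk)
      have h1 := Finset.card_le_card this
      have h2 : ({i, j} : Finset (Fin n)).card ≤ 2 := Finset.card_le_two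
      rw [Finset.card_univ, Fintype.card_fin] at h1
      omega
    obtain ⟨c, hc⟩ : ∃ c : Bool, ¬ ((i, c) ∈ W m0 ∧ (j, c) ∈ W m0) := by
      by_contra hcon
      push Not at hcon
      have h1 := card_supp hm0 {(i, false), (j, false), (i, true), (j, true)} (by
        intro v hv
        simp only [Finset.mem_insert, Finset.mem_singleton] at hv
        rcases hv with rfl | rfl | rfl | rfl
        · exact (hcon false).1
        · exact (hcon false).2
        · exact (hcon true).1
        · exact (hcon true).2)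
      have h2 : ({(i, false), (j, false), (i, true), (j, true)} : Finset (Vt n)).card = 4 := by
        rw [Finset.card_insert_of_notMem, Finset.card_insert_of_notMem,
          Finset.card_insert_of_notMem, Finset.card_singleton]
        · simp [hij]
        · simp [hij.symm]
        · simp [hij]
      omega
    refine sum_zero_of_adj_one (hx (k, !c) hki hkj) ?_
    rintro ⟨a1, a2⟩ ha ⟨b1, b2⟩ hb hka hkb
    have ha2 : a2 = c := by
      have := hka.2
      cases a2 <;> cases c <;> simp_all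
    have hb2 : b2 = c := by
      have := hkb.2
      cases b2 <;> cases c <;> simp_all
    subst ha2
    subst hb2
    have ha1 : a1 = i ∨ a1 = j := by
      by_cases h1 : a1 = i
      · exact Or.inl h1
      · exact Or.inr (h _ ha h1)
    have hb1 : b1 = i ∨ b1 = j := by
      by_cases h1 : b1 = i
      · exact Or.inl h1
      · exact Or.inr (h _ hb h1)
    rcases ha1 with rfl | rfl <;> rcases hb1 with rfl | rfl
    · exact R.refl _
    · exact absurd ⟨ha, hb⟩ hc
    · exact absurd ⟨hb, ha⟩ hc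
    · exact R.refl _

/-! ### three vertices on one side -/

/-- three tokens on three vertices -/
noncomputable def M3 (p q r : Vt n) (z1 z2 z3 : Bool) : (Vt n × Bool) →₀ ℕ :=
  Finsupp.single (p, z1) 1 + Finsupp.single (q, z2) 1 + Finsupp.single (r, z3) 1

lemma M3_mdeg (p q r : Vt n) (z1 z2 z3 : Bool) (v : Vt n) :
    mdeg (M3 p q r z1 z2 z3) v = (if v = p then 1 else 0) + (if v = q then 1 else 0) +
      (if v = r then 1 else 0) := by
  classical
  unfold M3
  rw [mdeg_add, mdeg_add, mdeg_single, mdeg_single, mdeg_single]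
  split_ifs <;> rfl

lemma mem_W_M3 (p q r : Vt n) (z1 z2 z3 : Bool) (v : Vt n) :
    v ∈ W (M3 p q r z1 z2 z3) ↔ v = p ∨ v = q ∨ v = r := by
  show mdeg _ v ≠ 0 ↔ _
  rw [M3_mdeg]
  by_cases h1 : v = p <;> by_cases h2 : v = q <;> by_cases h3 : v = r <;> simp [h1, h2, h3]

/-- the exponents with one token on each of three vertices -/
lemma eq_M3 {p q r : Vt n} (hpq : p ≠ q) (hpr : p ≠ r) (hqr : q ≠ r) {m : (Vt n × Bool) →₀ ℕ}
    (hm : ∀ v, mdeg m v = (if v = p then 1 else 0) + (if v = q then 1 else 0) +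
      (if v = r then 1 else 0)) : ∃ z1 z2 z3, m = M3 p q r z1 z2 z3 := by
  classical
  have key : ∀ v : Vt n, mdeg m v = 1 → ∃ z : Bool, m (v, z) = 1 ∧ m (v, !z) = 0 := by
    intro v hv
    have hv' : m (v, false) + m (v, true) = 1 := hv
    by_cases h : m (v, false) = 1
    · exact ⟨false, h, by simp; omega⟩
    · exact ⟨true, by omega, by simp; omega⟩
  obtain ⟨z1, h11, h12⟩ := key p (by rw [hm]; simp [hpq, hpr])
  obtain ⟨z2, h21, h22⟩ := key q (by rw [hm]; simp [hpq.symm, hqr])
  obtain ⟨z3, h31, h32⟩ := key r (by rw [hm]; simp [hpr.symm, hqr.symm])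
  refine ⟨z1, z2, z3, ?_⟩
  ext ⟨v, z⟩
  unfold M3
  rw [Finsupp.add_apply, Finsupp.add_apply, Finsupp.single_apply, Finsupp.single_apply,
    Finsupp.single_apply]
  by_cases h1 : v = p
  · subst h1
    by_cases hz : z1 = z
    · subst hz; simp [h11, hpq.symm, hpr.symm]
    · have : z = !z1 := by cases z <;> cases z1 <;> simp_all
      subst this
      simp [h12, hpq.symm, hpr.symm]
  · by_cases h2 : v = q
    · subst h2
      by_cases hz : z2 = z
      · subst hz; simp [h21, hpq, hqr.symm]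
      · have : z = !z2 := by cases z <;> cases z2 <;> simp_all
        subst this
        simp [h22, hpq, hqr.symm]
    · by_cases h3 : v = r
      · subst h3
        by_cases hz : z3 = z
        · subst hz; simp [h31, hpr, hqr]
        · have : z = !z3 := by cases z <;> cases z3 <;> simp_all
          subst this
          simp [h32, hpr, hqr]
      · have h4 := hm v
        rw [if_neg h1, if_neg h2, if_neg h3] at h4
        have h5 : m (v, z) = 0 := by
          unfold mdeg at h4
          cases z <;> omega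
        simp [h5, Ne.symm h1, Ne.symm h2, Ne.symm h3]

lemma M3_apply_p {p q r : Vt n} (hpq : p ≠ q) (hpr : p ≠ r) (z1 z2 z3 : Bool) :
    M3 p q r z1 z2 z3 (p, false) = if z1 = false then 1 else 0 := by
  unfold M3
  rw [Finsupp.add_apply, Finsupp.add_apply, Finsupp.single_apply, Finsupp.single_apply,
    Finsupp.single_apply]
  cases z1 <;> simp [hpq.symm, hpr.symm]

lemma M3_apply_q {p q r : Vt n} (hpq : p ≠ q) (hqr : q ≠ r) (z1 z2 z3 : Bool) :
    M3 p q r z1 z2 z3 (q, false) = if z2 = false then 1 else 0 := by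
  unfold M3
  rw [Finsupp.add_apply, Finsupp.add_apply, Finsupp.single_apply, Finsupp.single_apply,
    Finsupp.single_apply]
  cases z2 <;> simp [hpq, hqr.symm]

lemma M3_apply_r {p q r : Vt n} (hpr : p ≠ r) (hqr : q ≠ r) (z1 z2 z3 : Bool) :
    M3 p q r z1 z2 z3 (r, false) = if z3 = false then 1 else 0 := by
  unfold M3
  rw [Finsupp.add_apply, Finsupp.add_apply, Finsupp.single_apply, Finsupp.single_apply,
    Finsupp.single_apply]
  cases z3 <;> simp [hpr, hqr]

lemma adj_iff (u v : Vt n) : (crown n).Adj u v ↔ u.1 ≠ v.1 ∧ u.2 ≠ v.2 := Iff.rfl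

/-- data: three distinct vertices on one side -/
structure Three (p q r : Vt n) : Prop where
  pq : p.1 ≠ q.1
  pr : p.1 ≠ r.1
  qr : q.1 ≠ r.1
  s1 : p.2 = q.2
  s2 : p.2 = r.2

/-- class information after multiplication by the antipode of `p` -/
lemma three_info {p q r : Vt n} (h : Three p q r) {z1 z2 z3 : Bool} {m : (Vt n × Bool) →₀ ℕ}
    (hS : Sim (crown n) (Finsupp.single ((p.1, !p.2), false) 1 + m)
      (Finsupp.single ((p.1, !p.2), false) 1 + M3 p q r z1 z2 z3)) :
    ∃ w2 w3, m = M3 p q r z1 w2 w3 ∧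
      (if w2 = false then 1 else 0) + (if w3 = false then 1 else 0) =
      (if z2 = false then 1 else 0) + (if z3 = false then 1 else 0) := by
  classical
  set j : Vt n := (p.1, !p.2) with hj
  have hpq : p ≠ q := fun e => h.pq (by rw [e])
  have hpr : p ≠ r := fun e => h.pr (by rw [e])
  have hqr : q ≠ r := fun e => h.qr (by rw [e])
  have hjp : j ≠ p := fun e => by
    have := congrArg Prod.snd e
    simp [hj] at this
  have hjq : j ≠ q := fun e => h.pq (by rw [← e])
  have hjr : j ≠ r := fun e => h.pr (by rw [← e])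
  have hdeg : ∀ v, mdeg m v = (if v = p then 1 else 0) + (if v = q then 1 else 0) +
      (if v = r then 1 else 0) := by
    intro v
    have := hS.1 v
    rw [mdeg_add, mdeg_add, M3_mdeg] at this
    omega
  obtain ⟨w1, w2, w3, rfl⟩ := eq_M3 hpq hpr hqr hdeg
  have hW : ∀ v, v ∈ W (Finsupp.single (j, false) 1 + M3 p q r z1 z2 z3) →
      v = j ∨ v = p ∨ v = q ∨ v = r := by
    intro v hv
    have hv' : mdeg (Finsupp.single (j, false) 1 + M3 p q r z1 z2 z3) v ≠ 0 := hv
    rw [mdeg_add, mdeg_single, M3_mdeg] at hv'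
    by_contra hcon
    push Not at hcon
    apply hv'
    simp [hcon.1, hcon.2.1, hcon.2.2.1, hcon.2.2.2]
  -- `p` is isolated
  have hp : ∀ v, v ∈ W (Finsupp.single (j, false) 1 + M3 p q r z1 z2 z3) →
      ¬ (crown n).Adj p v := by
    intro v hv hadj
    rw [adj_iff] at hadj
    rcases hW v hv with rfl | rfl | rfl | rfl
    · exact hadj.1 rfl
    · exact hadj.1 rfl
    · exact hadj.2 h.s1
    · exact hadj.2 h.s2
  have hA : ∀ a ∈ W (Finsupp.single (j, false) 1 + M3 p q r z1 z2 z3),
      ∀ b ∈ W (Finsupp.single (j, false) 1 + M3 p q r z1 z2 z3), (crown n).Adj a b →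
      (a ∈ ({p} : Finset (Vt n)) ↔ b ∈ ({p} : Finset (Vt n))) := by
    intro a ha b hb hab
    rw [Finset.mem_singleton, Finset.mem_singleton]
    constructor
    · rintro rfl; exact absurd hab (hp b hb)
    · rintro rfl; exact absurd hab.symm (hp a ha)
  have h1 := hS.sum_closed {p} hA
  rw [Finset.sum_singleton, Finset.sum_singleton, Finsupp.add_apply, Finsupp.add_apply,
    M3_apply_p hpq hpr, M3_apply_p hpq hpr] at h1
  have hw1 : w1 = z1 := by
    cases w1 <;> cases z1 <;> simp_all
  subst hw1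
  have hB : ∀ a ∈ W (Finsupp.single (j, false) 1 + M3 p q r w1 z2 z3),
      ∀ b ∈ W (Finsupp.single (j, false) 1 + M3 p q r w1 z2 z3), (crown n).Adj a b →
      (a ∈ ({j, q, r} : Finset (Vt n)) ↔ b ∈ ({j, q, r} : Finset (Vt n))) := by
    intro a ha b hb hab
    have ha' : a ≠ p := by rintro rfl; exact hp b hb hab
    have hb' : b ≠ p := by rintro rfl; exact hp a ha hab.symm
    have h5 : a ∈ ({j, q, r} : Finset (Vt n)) := by
      simp only [Finset.mem_insert, Finset.mem_singleton]
      rcases hW a ha with h | h | h | h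
      · exact Or.inl h
      · exact absurd h ha'
      · exact Or.inr (Or.inl h)
      · exact Or.inr (Or.inr h)
    have h6 : b ∈ ({j, q, r} : Finset (Vt n)) := by
      simp only [Finset.mem_insert, Finset.mem_singleton]
      rcases hW b hb with h | h | h | h
      · exact Or.inl h
      · exact absurd h hb'
      · exact Or.inr (Or.inl h)
      · exact Or.inr (Or.inr h)
    exact ⟨fun _ => h6, fun _ => h5⟩
  have h2 := hS.sum_closed {j, q, r} hB
  have hj1 : j ∉ ({q, r} : Finset (Vt n)) := by simp [hjq, hjr]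
  have hq1 : q ∉ ({r} : Finset (Vt n)) := by simp [hqr]
  rw [Finset.sum_insert hj1, Finset.sum_insert hq1, Finset.sum_singleton, Finset.sum_insert hj1,
    Finset.sum_insert hq1, Finset.sum_singleton] at h2
  have hM : ∀ w2 w3, (M3 p q r w1 w2 w3) (j, false) = 0 := by
    intro w2 w3
    apply x_eq_zero
    rw [mem_W_M3]
    push Not
    exact ⟨hjp, hjq, hjr⟩
  have hsq : (Finsupp.single (j, false) 1 : (Vt n × Bool) →₀ ℕ) (q, false) = 0 := by
    rw [Finsupp.single_apply, if_neg]
    intro e; exact hjq (congrArg Prod.fst e)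
  have hsr : (Finsupp.single (j, false) 1 : (Vt n × Bool) →₀ ℕ) (r, false) = 0 := by
    rw [Finsupp.single_apply, if_neg]
    intro e; exact hjr (congrArg Prod.fst e)
  simp only [Finsupp.add_apply, hM, hsq, hsr, M3_apply_q hpq hqr, M3_apply_r hpr hqr] at h2
  exact ⟨w2, w3, rfl, by omega⟩

lemma three_eq {p q r : Vt n} (h : Three p q r) {f : MvPolynomial (Vt n × Bool) K}
    (hf : X ((p.1, !p.2), false) * f ∈ binEdge K (crown n)) (z1 z : Bool) :
    lin (ind K (crown n) (M3 p q r z1 z z)) f = 0 := by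
  apply sum_zero_of_X_mul hf
  intro m hm
  obtain ⟨w2, w3, rfl, hw⟩ := three_info h hm
  have : w2 = z ∧ w3 = z := by
    cases w2 <;> cases w3 <;> cases z <;> simp_all
  rw [this.1, this.2]
  exact Sim.refl _

lemma three_ne {p q r : Vt n} (h : Three p q r) {f : MvPolynomial (Vt n × Bool) K}
    (hf : X ((p.1, !p.2), false) * f ∈ binEdge K (crown n)) (z1 z2 z3 : Bool) (hz : z2 ≠ z3) :
    lin (ind K (crown n) (M3 p q r z1 z2 z3)) f + lin (ind K (crown n) (M3 p q r z1 z3 z2)) f = 0 := by
  classical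
  set j : Vt n := (p.1, !p.2) with hj
  have hpq : p ≠ q := fun e => h.pq (by rw [e])
  have hpr : p ≠ r := fun e => h.pr (by rw [e])
  have hqr : q ≠ r := fun e => h.qr (by rw [e])
  have h1 := sum_eq_zero_of_mem hf (Finsupp.single (j, false) 1 + M3 p q r z1 z2 z3)
  rw [X, lin_mul_monomial] at h1
  rw [← lin_add_fun, ← h1]
  apply lin_congr
  intro m _
  -- the two exponents are not equivalent
  have hnot : ∀ z2 z3 : Bool, z2 ≠ z3 → ¬ Sim (crown n) (M3 p q r z1 z2 z3) (M3 p q r z1 z3 z2) := by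
    intro z2 z3 hz hS
    have h2 := hS.sum_closed {q} ?_
    · rw [Finset.sum_singleton, Finset.sum_singleton, M3_apply_q hpq hqr,
        M3_apply_q hpq hqr] at h2
      cases z2 <;> cases z3 <;> simp_all
    · intro a ha b hb hab
      rw [mem_W_M3] at ha hb
      exfalso
      rw [adj_iff] at hab
      apply hab.2
      rcases ha with rfl | rfl | rfl <;> rcases hb with rfl | rfl | rfl <;>
        simp [← h.s1, ← h.s2]
  -- the swap is an equivalence after multiplication
  have hswap' : Sim (crown n) (Finsupp.single (j, false) 1 + M3 p q r z1 false true)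
      (Finsupp.single (j, false) 1 + M3 p q r z1 true false) := by
    have e1 : (Finsupp.single (j, false) 1 + M3 p q r z1 false true) =
        (Finsupp.single (j, false) 1 + Finsupp.single (p, z1) 1) + Finsupp.single (q, false) 1 +
          Finsupp.single (r, true) 1 := by
      unfold M3; abel
    have e2 : (Finsupp.single (j, false) 1 + M3 p q r z1 true false) =
        (Finsupp.single (j, false) 1 + Finsupp.single (p, z1) 1) + Finsupp.single (r, false) 1 +
          Finsupp.single (q, true) 1 := by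
      unfold M3; abel
    rw [e1, e2]
    apply sim_move
    rw [← e1]
    have hqW : q ∈ W (Finsupp.single (j, false) 1 + M3 p q r z1 false true) :=
      mem_W_add_right ((mem_W_M3 _ _ _ _ _ _ _).mpr (Or.inr (Or.inl rfl)))
    have hrW : r ∈ W (Finsupp.single (j, false) 1 + M3 p q r z1 false true) :=
      mem_W_add_right ((mem_W_M3 _ _ _ _ _ _ _).mpr (Or.inr (Or.inr rfl)))
    have hjW : j ∈ W (Finsupp.single (j, false) 1 + M3 p q r z1 false true) := by
      show mdeg _ j ≠ 0
      rw [mdeg_add, mdeg_single, if_pos rfl]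
      omega
    have a1 : (crown n).Adj q j := by
      rw [adj_iff]
      exact ⟨h.pq.symm, by rw [← h.s1]; simp [hj]⟩
    have a2 : (crown n).Adj j r := by
      rw [adj_iff]
      exact ⟨h.pr, by rw [← h.s2]; simp [hj]⟩
    exact (R.of_adj a1 hqW hjW).trans (R.of_adj a2 hjW hrW)
  have hswap : Sim (crown n) (Finsupp.single (j, false) 1 + M3 p q r z1 z3 z2)
      (Finsupp.single (j, false) 1 + M3 p q r z1 z2 z3) := by
    cases z2 <;> cases z3
    · exact absurd rfl hz
    · exact hswap'.symm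
    · exact hswap'
    · exact absurd rfl hz
  unfold ind
  by_cases hS : Sim (crown n) (Finsupp.single (j, false) 1 + m)
      (Finsupp.single (j, false) 1 + M3 p q r z1 z2 z3)
  · rw [if_pos hS]
    obtain ⟨w2, w3, rfl, hw⟩ := three_info h hS
    have hcase : (w2 = z2 ∧ w3 = z3) ∨ (w2 = z3 ∧ w3 = z2) := by
      cases w2 <;> cases w3 <;> cases z2 <;> cases z3 <;> simp_all
    rcases hcase with ⟨rfl, rfl⟩ | ⟨rfl, rfl⟩
    · rw [if_pos (Sim.refl _), if_neg (hnot _ _ hz), add_zero]
    · rw [if_pos (Sim.refl _), if_neg (hnot _ _ hz.symm), zero_add]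
  · rw [if_neg hS, if_neg (fun h' => hS (h'.add _)), if_neg (fun h' => hS ((h'.add _).trans hswap)),
      add_zero]

lemma Three.swap {p q r : Vt n} (h : Three p q r) : Three q p r :=
  ⟨h.pq.symm, h.qr, h.pr, h.s1.symm, h.s1.symm.trans h.s2⟩

lemma three_zero {p q r : Vt n} (h : Three p q r) {f : MvPolynomial (Vt n × Bool) K}
    (hfp : X ((p.1, !p.2), false) * f ∈ binEdge K (crown n))
    (hfq : X ((q.1, !q.2), false) * f ∈ binEdge K (crown n)) (z1 z2 z3 : Bool) :
    lin (ind K (crown n) (M3 p q r z1 z2 z3)) f = 0 := by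
  have hcomm : ∀ a b c, M3 p q r a b c = M3 q p r b a c := by
    intro a b c; unfold M3; abel
  have hB : ∀ a b, lin (ind K (crown n) (M3 p q r a b a)) f = 0 := by
    intro a b
    rw [hcomm]
    exact three_eq h.swap hfq b a
  by_cases h1 : z2 = z3
  · subst h1
    exact three_eq h hfp z1 z2
  · by_cases h2 : z1 = z3
    · subst h2
      exact hB z1 z2
    · have h3 : z1 = z2 := by
        cases z1 <;> cases z2 <;> cases z3 <;> simp_all
      subst h3
      have h4 := three_ne h hfp z1 z1 z3 h1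
      rw [hB z1 z3, add_zero] at h4
      exact h4

lemma bool3 : ∀ {x y z : Bool}, x ≠ y → y ≠ z → x = z := by decide

lemma bool_not : ∀ {x y : Bool}, x ≠ y → (!x) = y := by decide

/-! ### the sets `T` containing almost all of one side -/

lemma case_side {f : MvPolynomial (Vt n × Bool) K} (hn : 3 ≤ n) (b : Bool) (i0 : Fin n)
    (hx : ∀ v : Vt n, v.2 = b → v.1 ≠ i0 → X (v, false) * f ∈ binEdge K (crown n))
    (m0 : (Vt n × Bool) →₀ ℕ) (hm0 : ∑ v, mdeg m0 v ≤ 3) :
    lin (ind K (crown n) m0) f = 0 := by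
  classical
  by_cases h : ∃ v ∈ W m0, v.2 = b ∧ v.1 ≠ i0
  · obtain ⟨v, hv, h1, h2⟩ := h
    exact sum_zero_of_mem_W (hx v h1 h2) hv
  push Not at h
  by_cases h2 : ∃ k : Fin n, k ≠ i0 ∧ ∀ a ∈ W m0, ∀ c ∈ W m0, a.2 ≠ b → c.2 ≠ b → a.1 ≠ k →
      c.1 ≠ k → a = c
  · obtain ⟨k, hk, hk2⟩ := h2
    refine sum_zero_of_adj_one (hx (k, b) rfl hk) ?_
    intro a ha c hc hka hkc
    rw [adj_iff] at hka hkc
    rw [hk2 a ha c hc (Ne.symm hka.2) (Ne.symm hkc.2) (Ne.symm hka.1) (Ne.symm hkc.1)]
    exact R.refl _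
  push Not at h2
  -- three distinct vertices on the other side
  have hside : ∀ a c : Vt n, a.2 ≠ b → c.2 ≠ b → a.2 = c.2 := by
    intro a c ha hc
    exact bool3 ha hc.symm
  have hdist : ∀ a c : Vt n, a.2 ≠ b → c.2 ≠ b → a ≠ c → a.1 ≠ c.1 := by
    intro a c ha hc hac h3
    exact hac (Prod.ext h3 (hside a c ha hc))
  have step1 : ∃ p ∈ W m0, p.2 ≠ b ∧ p.1 ≠ i0 := by
    obtain ⟨k, hk⟩ : ∃ k : Fin n, k ≠ i0 := by
      by_contra hcon
      push Not at hcon
      have : (Finset.univ : Finset (Fin n)) ⊆ {i0} := fun k _ => Finset.mem_singleton.mpr (hcon k)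
      have h1 := Finset.card_le_card this
      rw [Finset.card_univ, Fintype.card_fin, Finset.card_singleton] at h1
      omega
    obtain ⟨a, ha, c, hc, ha2, hc2, -, -, hac⟩ := h2 k hk
    by_cases h3 : a.1 = i0
    · refine ⟨c, hc, hc2, ?_⟩
      rw [← h3]
      exact hdist c a hc2 ha2 (Ne.symm hac)
    · exact ⟨a, ha, ha2, h3⟩
  obtain ⟨p, hp, hp2, hp1⟩ := step1
  obtain ⟨a, ha, c, hc, ha2, hc2, hap, hcp, hac⟩ := h2 p.1 hp1
  have step2 : ∃ q ∈ W m0, ∃ r ∈ W m0, q.2 ≠ b ∧ r.2 ≠ b ∧ q.1 ≠ p.1 ∧ r.1 ≠ p.1 ∧ q.1 ≠ r.1 ∧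
      q.1 ≠ i0 := by
    by_cases h3 : a.1 = i0
    · refine ⟨c, hc, a, ha, hc2, ha2, hcp, hap, hdist c a hc2 ha2 (Ne.symm hac), ?_⟩
      rw [← h3]
      exact hdist c a hc2 ha2 (Ne.symm hac)
    · exact ⟨a, ha, c, hc, ha2, hc2, hap, hcp, hdist a c ha2 hc2 hac, h3⟩
  obtain ⟨q, hq, r, hr, hq2, hr2, hqp, hrp, hqr, hqi⟩ := step2
  have hT : Three p q r := ⟨hqp.symm, hrp.symm, hqr, hside p q hp2 hq2, hside p r hp2 hr2⟩
  have epq : p ≠ q := fun e => hqp (by rw [e])
  have epr : p ≠ r := fun e => hrp (by rw [e])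
  have eqr : q ≠ r := fun e => hqr (by rw [e])
  have hcard : ({p, q, r} : Finset (Vt n)).card = 3 := by
    rw [Finset.card_insert_of_notMem, Finset.card_insert_of_notMem, Finset.card_singleton]
    · simp [eqr]
    · simp [epq, epr]
  have hdeg : ∀ v, mdeg m0 v = (if v = p then 1 else 0) + (if v = q then 1 else 0) +
      (if v = r then 1 else 0) := by
    have hle : ∀ v ∈ (Finset.univ : Finset (Vt n)), (if v = p then 1 else 0) +
        (if v = q then 1 else 0) + (if v = r then 1 else 0) ≤ mdeg m0 v := by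
      intro v _
      have hp' : 1 ≤ mdeg m0 p := Nat.one_le_iff_ne_zero.mpr hp
      have hq' : 1 ≤ mdeg m0 q := Nat.one_le_iff_ne_zero.mpr hq
      have hr' : 1 ≤ mdeg m0 r := Nat.one_le_iff_ne_zero.mpr hr
      by_cases h1 : v = p
      · subst h1; simp [epq, epr]; exact hp'
      · by_cases h2 : v = q
        · subst h2; simp [h1, eqr]; exact hq'
        · by_cases h3 : v = r
          · subst h3; simp [h1, h2]; exact hr'
          · simp [h1, h2, h3]
    have hs : ∑ v : Vt n, ((if v = p then 1 else 0) + (if v = q then 1 else 0) +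
        (if v = r then 1 else 0)) = 3 := by
      rw [Finset.sum_add_distrib, Finset.sum_add_distrib, Finset.sum_ite_eq', Finset.sum_ite_eq',
        Finset.sum_ite_eq']
      simp
    have h5 := Finset.sum_le_sum hle
    have h6 : ∑ v : Vt n, ((if v = p then 1 else 0) + (if v = q then 1 else 0) +
        (if v = r then 1 else 0)) = ∑ v, mdeg m0 v := by omega
    intro v
    exact ((Finset.sum_eq_sum_iff_of_le hle).mp h6 v (Finset.mem_univ _)).symm
  obtain ⟨z1, z2, z3, rfl⟩ := eq_M3 epq epr eqr hdeg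
  have hb1 : (!p.2) = b := bool_not hp2
  have hb2 : (!q.2) = b := bool_not hq2
  exact three_zero hT (hx _ hb1 hp1) (hx _ hb2 hqi) z1 z2 z3

/-! ### the empty set -/

lemma case_empty {f : MvPolynomial (Vt n × Bool) K} (hn : 3 ≤ n)
    (hx : ∀ a b : Vt n, delta K a b * f ∈ binEdge K (crown n))
    (m0 : (Vt n × Bool) →₀ ℕ) (hm0 : ∑ v, mdeg m0 v ≤ 3) :
    lin (ind K (crown n) m0) f = 0 := by
  classical
  by_cases h : ∃ a ∈ W m0, ∃ b ∈ W m0, ¬ R (crown n) (W m0) a b
  · obtain ⟨a, ha, b, hb, hab⟩ := h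
    exact sum_zero_of_delta_disconnected (hx a b) _ m0 ha hb hab rfl
  push Not at h
  by_cases hne : W m0 = ∅
  · have h0 : (⟨0, by omega⟩ : Fin n) ≠ ⟨1, by omega⟩ := by
      intro e; simp at e
    refine sum_zero_of_delta_isolated (hx (⟨0, by omega⟩, false) (⟨1, by omega⟩, false)) ?_ ?_ ?_ ?_
      (Or.inr hne)
    · rw [hne]; exact Set.notMem_empty _
    · intro e; exact h0 (congrArg Prod.fst e)
    · intro hadj; exact hadj.2 rfl
    · intro c hc; rw [hne] at hc; exact absurd hc (Set.notMem_empty _)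
  -- every vertex of the support has a neighbour in it unless the support is a point
  have hnb : ∀ v ∈ W m0, ∀ w ∈ W m0, v ≠ w → ∃ u ∈ W m0, (crown n).Adj v u := by
    intro v hv w hw hvw
    have hR := h v hv w hw
    obtain ⟨p⟩ := hR
    cases p with
    | nil => exact absurd rfl hvw
    | cons hadj _ => exact ⟨_, hadj.2.2, hadj.1⟩
  -- a side with exactly one vertex
  have key : ∃ k c, (k, c) ∈ W m0 ∧ (∀ v ∈ W m0, v.2 = c → v = (k, c)) ∧
      (∀ v ∈ W m0, v.2 ≠ c → (crown n).Adj v (k, c)) := by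
    have claim : ∀ k c, (k, c) ∈ W m0 → (∀ v ∈ W m0, v.2 = c → v = (k, c)) →
        ∀ v ∈ W m0, v.2 ≠ c → (crown n).Adj v (k, c) := by
      intro k c hk hu v hv hvc
      obtain ⟨u, hu1, hu2⟩ := hnb v hv (k, c) hk (fun e => hvc (by rw [e]))
      have : u.2 = c := bool3 (Ne.symm hu2.2) hvc
      rw [hu u hu1 this] at hu2
      exact hu2
    obtain ⟨v0, hv0⟩ := Set.nonempty_iff_ne_empty.mpr hne
    by_cases hall : ∀ v ∈ W m0, v.2 = v0.2
    · have huniq : ∀ v ∈ W m0, v.2 = v0.2 → v = (v0.1, v0.2) := by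
        intro v hv _
        by_contra hvv
        obtain ⟨u, hu1, hu2⟩ := hnb v hv v0 hv0 hvv
        exact hu2.2 ((hall v hv).trans (hall u hu1).symm)
      exact ⟨v0.1, v0.2, hv0, huniq, claim _ _ hv0 huniq⟩
    · push Not at hall
      obtain ⟨v1, hv1, hv12⟩ := hall
      by_cases h1 : ∀ v ∈ W m0, v.2 = v0.2 → v = (v0.1, v0.2)
      · exact ⟨v0.1, v0.2, hv0, h1, claim _ _ hv0 h1⟩
      · by_cases h2 : ∀ v ∈ W m0, v.2 = v1.2 → v = (v1.1, v1.2)
        · exact ⟨v1.1, v1.2, hv1, h2, claim _ _ hv1 h2⟩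
        · exfalso
          push Not at h1 h2
          obtain ⟨a, ha, ha2, ha3⟩ := h1
          obtain ⟨c, hc, hc2, hc3⟩ := h2
          have h3 := card_supp hm0 {v0, v1, a, c} (by
            intro v hv
            simp only [Finset.mem_insert, Finset.mem_singleton] at hv
            rcases hv with rfl | rfl | rfl | rfl <;> assumption)
          have n1 : v0 ≠ v1 := fun e => hv12 (by rw [e])
          have n2 : v0 ≠ a := fun e => ha3 e.symm
          have n3 : v0 ≠ c := fun e => hv12 (by rw [e, hc2])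
          have n4 : v1 ≠ a := fun e => hv12 (by rw [e, ha2])
          have n5 : v1 ≠ c := fun e => hc3 e.symm
          have n6 : a ≠ c := fun e => hv12 (by rw [← hc2, ← e, ha2])
          rw [Finset.card_insert_of_notMem, Finset.card_insert_of_notMem,
            Finset.card_insert_of_notMem, Finset.card_singleton] at h3
          · omega
          · simp [n6]
          · simp [n4, n5]
          · simp [n1, n2, n3]
  obtain ⟨k, c, hk, huniq, hadj⟩ := key
  have hcc : (!c) ≠ c := by cases c <;> simp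
  have hnotW : (k, !c) ∉ W m0 := by
    intro hW
    exact (hadj _ hW hcc).1 rfl
  refine sum_zero_of_delta_isolated (hx (k, !c) (k, c)) hnotW ?_ ?_ ?_ (Or.inl hk)
  · intro e
    exact hcc (congrArg Prod.snd e)
  · intro h3; exact h3.1 rfl
  · intro v hv h3
    have : v.2 = c := bool3 (Ne.symm h3.2) hcc
    rw [huniq v hv this] at h3
    exact h3.1 rfl

lemma crown_connected (hn : 3 ≤ n) (a b : Vt n) :
    (inside (crown n) (∅ : Set (Vt n))ᶜ).Reachable a b := by
  have third : ∀ i j : Fin n, ∃ k, k ≠ i ∧ k ≠ j := by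
    intro i j
    by_contra hcon
    push Not at hcon
    have : (Finset.univ : Finset (Fin n)) ⊆ {i, j} := by
      intro k _
      rw [Finset.mem_insert, Finset.mem_singleton]
      by_cases hk : k = i
      · exact Or.inl hk
      · exact Or.inr (hcon k hk)
    have h1 := Finset.card_le_card this
    have h2 : ({i, j} : Finset (Fin n)).card ≤ 2 := Finset.card_le_two
    rw [Finset.card_univ, Fintype.card_fin] at h1
    omega
  have hadj : ∀ a b : Vt n, a.1 ≠ b.1 → a.2 ≠ b.2 →
      (inside (crown n) (∅ : Set (Vt n))ᶜ).Reachable a b := by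
    intro a b h1 h2
    exact SimpleGraph.Adj.reachable ⟨⟨h1, h2⟩, Set.notMem_empty _, Set.notMem_empty _⟩
  have hsame : ∀ a b : Vt n, a.2 = b.2 → (inside (crown n) (∅ : Set (Vt n))ᶜ).Reachable a b := by
    intro a b h
    obtain ⟨k, hk1, hk2⟩ := third a.1 b.1
    refine (hadj a (k, !a.2) hk1.symm (by simp)).trans (hadj (k, !a.2) b hk2 (by rw [← h]; simp))
  by_cases h : a.2 = b.2
  · exact hsame a b h
  · obtain ⟨k, hk1, -⟩ := third b.1 b.1
    exact (hsame a (k, a.2) rfl).trans (hadj (k, a.2) b hk1 h)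

/-- For every `n ≥ 4` and every `T ∈ 𝒞(C_{n,n})` there is no homogeneous `f` of degree at most
three with `J_G : f = P_T(G)`. -/
theorem result (K : Type) [Field K] (n : ℕ) (hn : 4 ≤ n) (T : Set (Fin n × Bool))
    (hT : T ∈ crownCutSets n) (d : ℕ) (hd : d ≤ 3) :
    ¬ ∃ f : MvPolynomial ((Fin n × Bool) × Bool) K, f.IsHomogeneous d ∧
      ∀ g, g ∈ PT K (crown n) T ↔ g * f ∈ binEdge K (crown n) := by
  rintro ⟨f, hf, hcolon⟩
  have hvar : ∀ v ∈ T, ∀ z : Bool, X (v, z) * f ∈ binEdge K (crown n) := by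
    intro v hv z
    rw [← hcolon]
    exact Ideal.subset_span (Or.inl ⟨v, hv, z, rfl⟩)
  -- `f` belongs to the ideal
  have hfJ : f ∈ binEdge K (crown n) := by
    apply mem_of_small hf hd
    rcases hT with rfl | ⟨b, rfl⟩ | ⟨b, i, rfl⟩ | ⟨i, j, hij, rfl⟩
    · apply case_empty (by omega)
      intro a b
      rw [← hcolon]
      exact Ideal.subset_span (Or.inr ⟨a, b, Set.notMem_empty _, Set.notMem_empty _,
        crown_connected (by omega) a b, rfl⟩)
    · exact case_side (by omega) b ⟨0, by omega⟩ (fun v hv _ => hvar v hv false)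
    · exact case_side (by omega) b i (fun v hv hv' => hvar v ⟨hv, hv'⟩ false)
    · exact case_ij (by omega) hij (fun v hv hv' => hvar v ⟨hv, hv'⟩ false)
  -- so the colon ideal is everything, but `P_T` is proper
  have h1 : (1 : MvPolynomial ((Fin n × Bool) × Bool) K) ∈ PT K (crown n) T := by
    rw [hcolon, one_mul]; exact hfJ
  have h2 : PT K (crown n) T ≤ RingHom.ker (constantCoeff (R := K)
      (σ := (Fin n × Bool) × Bool)) := by
    unfold PT
    rw [Ideal.span_le]
    rintro g (⟨v, -, z, rfl⟩ | ⟨a, b, -, -, -, rfl⟩)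
    · show constantCoeff _ = 0
      simp
    · show constantCoeff _ = 0
      simp [delta]
  have h3 := h2 h1
  rw [RingHom.mem_ker, map_one] at h3
  exact one_ne_zero h3

end Pool.Agent.Results.MP_354fda_al.CrownVNumber
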